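import Pool.Agent.P8H18.RR.Stm3

set_option autoImplicit false

namespace Pool.Agent.P8H61.DS

open Finset Pool.Agent.P8H18.RR Pool.Agent.P8H18.DS

/-- the counted primes as a difference of two initial segments -/
lemma split (L e f : ℕ) (he : e < 10) (hf : f ≤ 9) (hf1 : 1 ≤ f) :
    ∑ n ∈ (range (10 ^ (2 * L + 1))).filter (fun n => n.Prime ∧ dig n 0 = e ∧ dig n (2 * L) = f), Real.log n =
      ∑ n ∈ (Icc 1 ((f + 1) * 10 ^ (2 * L) - 1)).filter (fun p => p.Prime ∧ p ≡ e [MOD 10 ^ 1]), Real.log n -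
      ∑ n ∈ (Icc 1 (f * 10 ^ (2 * L) - 1)).filter (fun p => p.Prime ∧ p ≡ e [MOD 10 ^ 1]), Real.log n := by
  have hM : 1 ≤ 10 ^ (2 * L) := Nat.one_le_pow _ _ (by norm_num)
  have hU : (Icc 1 ((f + 1) * 10 ^ (2 * L) - 1)).filter (fun p => p.Prime ∧ p ≡ e [MOD 10 ^ 1]) =
      (range (10 ^ (2 * L + 1))).filter (fun n => n.Prime ∧ dig n 0 = e ∧ dig n (2 * L) = f) ∪
      (Icc 1 (f * 10 ^ (2 * L) - 1)).filter (fun p => p.Prime ∧ p ≡ e [MOD 10 ^ 1]) := by
    ext n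
    simp only [mem_union, mem_filter, mem_Icc, mem_range, dig, pow_zero, Nat.div_one, pow_one, Nat.ModEq,
      Nat.mod_eq_of_lt he]
    have h10 : 10 ^ (2 * L + 1) = 10 * 10 ^ (2 * L) := by ring
    have hf2 : (f + 1) * 10 ^ (2 * L) ≤ 10 * 10 ^ (2 * L) := Nat.mul_le_mul_right _ (by omega)
    have hexp : (f + 1) * 10 ^ (2 * L) = f * 10 ^ (2 * L) + 10 ^ (2 * L) := by ring
    have hf3 : 1 * 10 ^ (2 * L) ≤ f * 10 ^ (2 * L) := Nat.mul_le_mul_right _ hf1
    constructor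
    · rintro ⟨⟨h1, h2⟩, h3, h4⟩
      by_cases h5 : n ≤ f * 10 ^ (2 * L) - 1
      · exact Or.inr ⟨⟨h1, h5⟩, h3, h4⟩
      · refine Or.inl ⟨by omega, h3, h4, ?_⟩
        have h6 : n / 10 ^ (2 * L) = f := by
          apply Nat.div_eq_of_lt_le
          · omega
          · omega
        rw [h6]
        exact Nat.mod_eq_of_lt (by omega)
    · rintro (⟨h1, h3, h4, h5⟩ | ⟨⟨h1, h2⟩, h3, h4⟩)
      · have h6 : n / 10 ^ (2 * L) < 10 := by
          rw [Nat.div_lt_iff_lt_mul (by omega)]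
          omega
        rw [Nat.mod_eq_of_lt h6] at h5
        have h7 : n < (f + 1) * 10 ^ (2 * L) := by
          have h8 := Nat.div_add_mod n (10 ^ (2 * L))
          have h9 := Nat.mod_lt n (show 10 ^ (2 * L) > 0 by omega)
          rw [h5, mul_comm] at h8
          omega
        exact ⟨⟨h3.one_le, by omega⟩, h3, h4⟩
      · exact ⟨⟨h1, by omega⟩, h3, h4⟩
  have hD : Disjoint ((range (10 ^ (2 * L + 1))).filter (fun n => n.Prime ∧ dig n 0 = e ∧ dig n (2 * L) = f))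
      ((Icc 1 (f * 10 ^ (2 * L) - 1)).filter (fun p => p.Prime ∧ p ≡ e [MOD 10 ^ 1])) := by
    rw [Finset.disjoint_left]
    intro n h1 h2
    have h1' := (mem_filter.mp h1)
    have h2' := (mem_filter.mp h2)
    have h2 := (mem_Icc.mp h2'.1)
    have h5 : n / 10 ^ (2 * L) % 10 = f := h1'.2.2.2
    have h1 := mem_range.mp h1'.1
    have h10 : 10 ^ (2 * L + 1) = 10 * 10 ^ (2 * L) := by ring
    have h6 : n / 10 ^ (2 * L) < 10 := by
      rw [Nat.div_lt_iff_lt_mul (by omega)]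
      omega
    rw [Nat.mod_eq_of_lt h6] at h5
    have h7 : f * 10 ^ (2 * L) ≤ n := by
      rw [← h5]
      exact Nat.div_mul_le_self n _
    have hf3 : 1 * 10 ^ (2 * L) ≤ f * 10 ^ (2 * L) := Nat.mul_le_mul_right _ hf1
    omega
  rw [hU, sum_union hD]
  ring

/-- the trivial bound -/
lemma trivial_bound (L e f : ℕ) :
    |∑ n ∈ (range (10 ^ (2 * L + 1))).filter (fun n => n.Prime ∧ dig n 0 = e ∧ dig n (2 * L) = f), Real.log n -
      10 ^ (2 * L) / 4| ≤ 10 ^ (2 * L) * (30 * (2 * L + 1) + 1) := by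
  have h10 : Real.log 10 ≤ 3 := by
    have h1 : Real.log 10 ≤ Real.log (Real.exp 3) := by
      apply Real.log_le_log (by norm_num)
      have h2 := Real.exp_one_gt_d9
      have h3 : Real.exp 3 = Real.exp 1 ^ 3 := by
        rw [← Real.exp_nat_mul]; norm_num
      rw [h3]
      have h4 : (2.7 : ℝ) ^ 3 ≤ Real.exp 1 ^ 3 := pow_le_pow_left₀ (by norm_num) (by linarith) 3
      norm_num at h4 ⊢
      linarith
    rwa [Real.log_exp] at h1
  have hM : (0 : ℝ) < 10 ^ (2 * L) := by positivity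
  have hS0 : 0 ≤ ∑ n ∈ (range (10 ^ (2 * L + 1))).filter (fun n => n.Prime ∧ dig n 0 = e ∧ dig n (2 * L) = f),
      Real.log n := sum_nonneg fun n _ => Real.log_natCast_nonneg n
  have hS1 : ∑ n ∈ (range (10 ^ (2 * L + 1))).filter (fun n => n.Prime ∧ dig n 0 = e ∧ dig n (2 * L) = f),
      Real.log n ≤ 10 ^ (2 * L) * (30 * (2 * L + 1)) := by
    calc ∑ n ∈ (range (10 ^ (2 * L + 1))).filter (fun n => n.Prime ∧ dig n 0 = e ∧ dig n (2 * L) = f), Real.log n
        ≤ ∑ n ∈ (range (10 ^ (2 * L + 1))).filter (fun n => n.Prime ∧ dig n 0 = e ∧ dig n (2 * L) = f),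
          (3 * (2 * L + 1) : ℝ) := by
          apply sum_le_sum
          intro n hn
          rw [mem_filter, mem_range] at hn
          have h1 : (n : ℝ) ≤ (10 : ℝ) ^ (2 * L + 1) := by exact_mod_cast hn.1.le
          have h2 : (0 : ℝ) < n := by exact_mod_cast hn.2.1.pos
          have h3 := Real.log_le_log h2 h1
          rw [Real.log_pow] at h3
          push_cast at h3
          have h4 : (2 * (L : ℝ) + 1) * Real.log 10 ≤ (2 * (L : ℝ) + 1) * 3 :=
            mul_le_mul_of_nonneg_left h10 (by positivity)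
          linarith
      _ ≤ ∑ n ∈ range (10 ^ (2 * L + 1)), (3 * (2 * L + 1) : ℝ) := by
          apply sum_le_sum_of_subset_of_nonneg (filter_subset _ _)
          intro n _ _
          positivity
      _ = 10 ^ (2 * L) * (30 * (2 * L + 1)) := by
          rw [sum_const, card_range, nsmul_eq_mul]
          push_cast
          ring
  rw [abs_le]
  constructor
  · have : (0 : ℝ) ≤ 10 ^ (2 * L) * (30 * (2 * L + 1)) := by positivity
    nlinarith
  · nlinarith

theorem pnt2 : S_PNT2A := by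
  rintro ⟨c, C, hc, hC, h⟩
  refine ⟨c, 20 * C + 10 * (30 * (2 * (3 / c) ^ 2 + 1) + 1), hc, by positivity, ?_⟩
  intro L e f hL he hf1 hf9
  have he10 : e < 10 ∧ e.Coprime 10 := by
    simp only [mem_insert, mem_singleton] at he
    rcases he with rfl | rfl | rfl | rfl <;> decide
  have hE : 0 < Real.exp (-(c * √(L : ℝ))) := Real.exp_pos _
  have hM : (0 : ℝ) < 10 ^ (2 * L) := by positivity
  by_cases hbig : (10 : ℝ) ≤ Real.exp (c * √(L : ℝ))
  · have hx1 : (f + 1) * 10 ^ (2 * L) - 1 ≤ 10 ^ (2 * L + 1) := by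
      have h10 : 10 ^ (2 * L + 1) = 10 * 10 ^ (2 * L) := by ring
      have hf2 : (f + 1) * 10 ^ (2 * L) ≤ 10 * 10 ^ (2 * L) := Nat.mul_le_mul_right _ (by omega)
      omega
    have hx0 : f * 10 ^ (2 * L) - 1 ≤ 10 ^ (2 * L + 1) := by
      have h10 : 10 ^ (2 * L + 1) = 10 * 10 ^ (2 * L) := by ring
      have hf2 : f * 10 ^ (2 * L) ≤ 10 * 10 ^ (2 * L) := Nat.mul_le_mul_right _ (by omega)
      omega
    have hb : (10 : ℝ) ^ 1 ≤ Real.exp (c * (L : ℝ) ^ (1 / 2 : ℝ)) := by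
      rw [← Real.sqrt_eq_rpow, pow_one]; exact hbig
    have h1 := h L 1 e _ hL le_rfl hb he10.2 hx1
    have h0 := h L 1 e _ hL le_rfl hb he10.2 hx0
    have hphi : (Nat.totient (10 ^ 1) : ℝ) = 4 := by
      have : Nat.totient (10 ^ 1) = 4 := by decide
      rw [this]; norm_num
    rw [hphi, ← Real.sqrt_eq_rpow] at h1 h0
    have hM1 : 1 ≤ 10 ^ (2 * L) := Nat.one_le_pow _ _ (by norm_num)
    have hc1 : (((f + 1) * 10 ^ (2 * L) - 1 : ℕ) : ℝ) = ((f : ℝ) + 1) * 10 ^ (2 * L) - 1 := by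
      rw [Nat.cast_sub (Nat.one_le_iff_ne_zero.mpr (Nat.mul_ne_zero (by omega) (by omega)))]
      push_cast
      ring
    have hc0 : ((f * 10 ^ (2 * L) - 1 : ℕ) : ℝ) = (f : ℝ) * 10 ^ (2 * L) - 1 := by
      rw [Nat.cast_sub (Nat.one_le_iff_ne_zero.mpr (Nat.mul_ne_zero (by omega) (by omega)))]
      push_cast
      ring
    rw [hc1] at h1
    rw [hc0] at h0
    rw [split L e f he10.1 hf9 hf1]
    rw [abs_le] at h1 h0 ⊢
    have hpow : (10 : ℝ) ^ (2 * L + 1) = 10 * 10 ^ (2 * L) := by ring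
    rw [hpow] at h1 h0
    have hX : 0 ≤ 10 * (30 * (2 * (3 / c) ^ 2 + 1) + 1) * 10 ^ (2 * L) * Real.exp (-(c * √(L : ℝ))) := by
      positivity
    constructor <;> nlinarith [h1.1, h1.2, h0.1, h0.2]
  · rw [not_le] at hbig
    have hlt : c * √(L : ℝ) < 3 := by
      by_contra hcon
      rw [not_lt] at hcon
      have h1 := Real.exp_le_exp.mpr hcon
      have h2 := Real.exp_one_gt_d9
      have h3 : Real.exp 3 = Real.exp 1 ^ 3 := by
        rw [← Real.exp_nat_mul]; norm_num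
      have h4 : (2.7 : ℝ) ^ 3 ≤ Real.exp 1 ^ 3 := pow_le_pow_left₀ (by norm_num) (by linarith) 3
      rw [← h3] at h4
      norm_num at h4
      linarith
    have hLle : (L : ℝ) ≤ (3 / c) ^ 2 := by
      have h1 : √(L : ℝ) ≤ 3 / c := by
        rw [le_div_iff₀ hc]; linarith
      have h2 : √(L : ℝ) ^ 2 = L := Real.sq_sqrt (Nat.cast_nonneg _)
      rw [← h2]
      exact pow_le_pow_left₀ (Real.sqrt_nonneg _) h1 2
    have hexp : 1 ≤ 10 * Real.exp (-(c * √(L : ℝ))) := by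
      have h1 : Real.exp (c * √(L : ℝ)) * Real.exp (-(c * √(L : ℝ))) = 1 := by
        rw [← Real.exp_add]; simp
      nlinarith
    refine (trivial_bound L e f).trans ?_
    have h1 : (30 * (2 * (L : ℝ) + 1) + 1) ≤ (30 * (2 * (3 / c) ^ 2 + 1) + 1) := by linarith
    have h2 : (0 : ℝ) ≤ 30 * (2 * (3 / c) ^ 2 + 1) + 1 := by positivity
    calc (10 : ℝ) ^ (2 * L) * (30 * (2 * L + 1) + 1)
        ≤ 10 ^ (2 * L) * (30 * (2 * (3 / c) ^ 2 + 1) + 1) := mul_le_mul_of_nonneg_left h1 hM.le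
      _ ≤ 10 ^ (2 * L) * (30 * (2 * (3 / c) ^ 2 + 1) + 1) * (10 * Real.exp (-(c * √(L : ℝ)))) :=
          le_mul_of_one_le_right (by positivity) hexp
      _ ≤ (20 * C + 10 * (30 * (2 * (3 / c) ^ 2 + 1) + 1)) * 10 ^ (2 * L) * Real.exp (-(c * √(L : ℝ))) := by
          have h5 : 0 ≤ 20 * C * 10 ^ (2 * L) * Real.exp (-(c * √(L : ℝ))) := by positivity
          nlinarith

end Pool.Agent.P8H61.DS
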